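import Pool.Agent.H45.DE.Tail

/-!
# DE (helper45): the tail lemma in one variable
-/

set_option autoImplicit false
open Real Set MeasureTheory Filter Topology

namespace Pool.Agent.H45.DE
open Pool.Agent.H51.DG

theorem tail1 {a : ℝ → ℝ} (ha : Bd a) {κ : ℝ → ℝ} (hi : ∀ r0 : ℝ, IntegrableOn κ (Ioi r0))
    {k : ℝ → ℝ} (hk : ∀ x ∈ Ioo (0:ℝ) π, k x = ∫ u in Ioi (-Real.log (ct x)), κ u) :
    IntegrableOn (fun x => a x * k x) (Ioo (0:ℝ) π) ∧ Integrable (fun u => κ u * MMb a u) ∧
      ∫ x in Ioo (0:ℝ) π, a x * k x = ∫ u, κ u * MMb a u := by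
  obtain ⟨δ1, hδ1, hz1⟩ := ha.z
  set d : ℝ := min δ1 1 with hd
  have hd0 : 0 < d := lt_min hδ1 one_pos
  have hd1 : d < π := by
    have := Real.pi_gt_three
    have h2 : d ≤ 1 := min_le_right _ _
    linarith
  have hza : ∀ x, 0 ≤ x → x ≤ d → a x = 0 := fun x h0 h1 => hz1 x h0 (h1.trans (min_le_left _ _))
  set r0 := -Real.log (ct d) with hr0
  set S1 : Set ℝ := Ioo (0:ℝ) π with hS1
  have hS1m : MeasurableSet S1 := measurableSet_Ioo
  set S : Set (ℝ × ℝ) := {w | w.1 < th w.2} with hS
  have hSm : MeasurableSet S :=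
    (isOpen_lt continuous_fst (tl_cont_th.comp continuous_snd)).measurableSet
  have hab : Integrable a (volume.restrict S1) := tl_int ha
  have hκ : Integrable ((Ioi r0).indicator κ) := by
    rw [integrable_indicator_iff measurableSet_Ioi]
    exact hi r0
  have hbig : Integrable (fun w : ℝ × ℝ => a w.1 * (Ioi r0).indicator κ w.2)
      ((volume.restrict S1).prod volume) := hab.mul_prod hκ
  set F : ℝ × ℝ → ℝ := S.indicator (fun w => a w.1 * (Ioi r0).indicator κ w.2) with hF
  have hFi : Integrable F ((volume.restrict S1).prod volume) := hbig.indicator hSm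
  have hdrop : ∀ x ∈ Ioo (0:ℝ) π, ∀ u : ℝ,
      F (x, u) = (Ioi (-Real.log (ct x))).indicator (fun u => a x * κ u) u := by
    intro x hx u
    have hiff : ((x, u) : ℝ × ℝ) ∈ S ↔ u ∈ Ioi (-Real.log (ct x)) := by
      simp only [hS, mem_ofPred_eq, mem_Ioi]
      rw [tl_lt_iff hx.1 hx.2]
    by_cases hz : u ∈ Ioi (-Real.log (ct x))
    · rw [indicator_of_mem hz, hF, indicator_of_mem (hiff.mpr hz)]
      by_cases hxd : x ≤ d
      · simp [hza x hx.1.le hxd]
      · push Not at hxd
        have k1 : r0 < -Real.log (ct x) := by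
          have e1 := ct_lt hd0 hxd (by linarith [hx.2, Real.pi_pos])
          have e2 := Real.log_lt_log (ct_pos hx.1 hx.2) e1
          rw [hr0]
          linarith
        have hzQ : u ∈ Ioi r0 := k1.trans hz
        simp only
        rw [indicator_of_mem hzQ]
    · rw [indicator_of_notMem hz, hF, indicator_of_notMem (fun h => hz (hiff.mp h))]
  have hin : ∀ x ∈ Ioo (0:ℝ) π, ∫ u : ℝ, F (x, u) = a x * k x := by
    intro x hx
    rw [hk x hx]
    simp_rw [hdrop x hx]
    rw [integral_indicator measurableSet_Ioi, integral_const_mul]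
  have hin2 : ∀ u : ℝ, ∫ x in S1, F (x, u) = κ u * MMb a u := by
    intro u
    have h1 : ∀ x : ℝ, x ∈ S1 → F (x, u) =
        (Ioo (0:ℝ) (th u)).indicator (fun x : ℝ => κ u * a x) x := by
      intro x hx
      rw [hdrop x hx u]
      by_cases hz : u ∈ Ioi (-Real.log (ct x))
      · have hz1 := (tl_lt_iff hx.1 hx.2).mpr hz
        have hmem : x ∈ Ioo (0:ℝ) (th u) := ⟨hx.1, hz1⟩
        rw [indicator_of_mem hz, indicator_of_mem hmem]
        ring
      · rw [indicator_of_notMem hz, indicator_of_notMem]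
        intro hmem
        exact hz ((tl_lt_iff hx.1 hx.2).mp hmem.2)
    rw [setIntegral_congr_fun hS1m h1, integral_indicator measurableSet_Ioo]
    rw [Measure.restrict_restrict measurableSet_Ioo]
    have h2 : Ioo (0:ℝ) (th u) ∩ S1 = Ioo (0:ℝ) (th u) := by
      rw [inter_eq_left]
      exact Ioo_subset_Ioo_right (th_mem _).2.le
    rw [h2, integral_const_mul, tl_MMb]
  have c1 : Integrable (fun x : ℝ => ∫ u : ℝ, F (x, u)) (volume.restrict S1) :=
    hFi.integral_prod_left
  have c2 : Integrable (fun u : ℝ => ∫ x in S1, F (x, u)) := hFi.integral_prod_right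
  have c3 : ∀ x ∈ S1, ∫ u : ℝ, F (x, u) = a x * k x := fun x hx => hin x hx
  refine ⟨?_, ?_, ?_⟩
  · have : IntegrableOn (fun x : ℝ => ∫ u : ℝ, F (x, u)) S1 := c1
    exact this.congr_fun c3 hS1m
  · exact c2.congr (Eventually.of_forall hin2)
  · rw [← setIntegral_congr_fun hS1m c3, ← integral_prod _ hFi, integral_prod_symm _ hFi]
    exact integral_congr_ae (Eventually.of_forall hin2)

end Pool.Agent.H45.DE
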