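import Pool.Agent.H90.DC.KBase

/-!
# DE (helper45): integrals of powers of `1 / cc`
-/

set_option autoImplicit false
open Real Set MeasureTheory Filter Topology

namespace Pool.Agent.H45.DE
open Pool.Agent.H51.DG Pool.Agent.H90.DC

theorem ki_at (τ : ℝ) : HasDerivAt (fun τ => 2 * Real.arctan (Real.exp (τ / 2))) (1 / cc τ ^ 1) τ := by
  have h1 : HasDerivAt (fun τ : ℝ => Real.exp (τ / 2)) (Real.exp (τ / 2) * (1 / 2)) τ :=
    ((hasDerivAt_id τ).div_const 2).exp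
  refine ((h1.arctan).const_mul 2).congr_deriv ?_
  rw [cc_eq, Real.exp_neg]
  have := Real.exp_pos (τ / 2)
  field_simp
  ring

theorem ki1 : ∫ τ : ℝ, 1 / cc τ ^ 1 = π := by
  have hb : Tendsto (fun τ : ℝ => 2 * Real.arctan (Real.exp (τ / 2))) atBot (𝓝 (2 * 0)) := by
    refine Tendsto.const_mul 2 ?_
    have h1 : Tendsto (fun τ : ℝ => Real.exp (τ / 2)) atBot (𝓝 0) :=
      Real.tendsto_exp_atBot.comp (tendsto_id.atBot_div_const (by norm_num))
    have h2 := (Real.continuous_arctan.tendsto 0).comp h1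
    rwa [Real.arctan_zero] at h2
  have ht : Tendsto (fun τ : ℝ => 2 * Real.arctan (Real.exp (τ / 2))) atTop (𝓝 (2 * (π / 2))) := by
    refine Tendsto.const_mul 2 ?_
    have h1 : Tendsto (fun τ : ℝ => Real.exp (τ / 2)) atTop atTop :=
      Real.tendsto_exp_atTop.comp (tendsto_id.atTop_div_const (by norm_num))
    exact (tendsto_nhds_of_tendsto_nhdsWithin Real.tendsto_arctan_atTop).comp h1
  rw [integral_of_hasDerivAt_of_tendsto ki_at (int_inv le_rfl) hb ht]
  ring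

theorem ki_sh_cont (n : ℕ) : Continuous fun τ : ℝ => Real.sinh (τ / 2) / cc τ ^ n :=
  (Real.continuous_sinh.comp (continuous_id.div_const 2)).div (cont_cc.pow n)
    fun τ => pow_ne_zero n (cc_pos τ).ne'

theorem ki_sh_int (n : ℕ) : Integrable fun τ : ℝ => Real.sinh (τ / 2) / cc τ ^ (n + 2) :=
  ND_integrable_of_bd (ki_sh_cont (n + 2)) (by norm_num) sh_inv

theorem ki3 : ∫ τ : ℝ, 1 / cc τ ^ 3 = π / 8 := by
  have i1 := (int_inv (n := 1) le_rfl)
  have i3 := (int_inv (n := 3) (by norm_num))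
  have h := integral_eq_zero_of_hasDerivAt_of_integrable hd_s2
    (((i1.const_mul (1 / 4)).neg).add (i3.const_mul 2)) (ki_sh_int 0)
  have e : ∫ τ : ℝ, (-(1 / 4 * (1 / cc τ ^ 1)) + 2 * (1 / cc τ ^ 3)) =
      -(1 / 4 * ∫ τ : ℝ, 1 / cc τ ^ 1) + 2 * ∫ τ : ℝ, 1 / cc τ ^ 3 := by
    rw [← integral_const_mul, ← integral_const_mul, ← integral_neg]
    exact integral_add ((i1.const_mul (1 / 4)).neg) (i3.const_mul 2)
  rw [e, ki1] at h
  linarith

theorem ki5 : ∫ τ : ℝ, 1 / cc τ ^ 5 = 3 * π / 128 := by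
  have i3 := (int_inv (n := 3) (by norm_num))
  have i5 := (int_inv (n := 5) (by norm_num))
  have h := integral_eq_zero_of_hasDerivAt_of_integrable hd_s4
    (((i3.const_mul (3 / 4)).neg).add (i5.const_mul 4)) (ki_sh_int 2)
  have e : ∫ τ : ℝ, (-(3 / 4 * (1 / cc τ ^ 3)) + 4 * (1 / cc τ ^ 5)) =
      -(3 / 4 * ∫ τ : ℝ, 1 / cc τ ^ 3) + 4 * ∫ τ : ℝ, 1 / cc τ ^ 5 := by
    rw [← integral_const_mul, ← integral_const_mul, ← integral_neg]
    exact integral_add ((i3.const_mul (3 / 4)).neg) (i5.const_mul 4)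
  rw [e, ki3] at h
  linarith

theorem ki_e1 (σ : ℝ) : Real.exp σ + Real.exp (-σ) = cc σ ^ 2 - 2 := by
  have h1 : Real.exp σ = Real.exp (σ / 2) ^ 2 := by
    rw [← Real.exp_nat_mul]
    congr 1
    push_cast
    ring
  have h2 : Real.exp (-σ) = Real.exp (-(σ / 2)) ^ 2 := by
    rw [← Real.exp_nat_mul]
    congr 1
    push_cast
    ring
  have h3 : Real.exp (σ / 2) * Real.exp (-(σ / 2)) = 1 := by
    rw [← Real.exp_add]
    simp
  rw [cc_eq, h1, h2]
  linear_combination (-2) * h3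

theorem ki_exp_le (σ : ℝ) : Real.exp (σ / 2) ≤ cc σ := by
  rw [cc_eq]
  linarith [Real.exp_pos (-(σ / 2))]

theorem ki_exp_le' (σ : ℝ) : Real.exp (-(σ / 2)) ≤ cc σ := by
  rw [cc_eq]
  linarith [Real.exp_pos (σ / 2)]

theorem ki_exp1_le (σ : ℝ) : Real.exp σ ≤ cc σ ^ 2 := by
  have h1 : Real.exp σ = Real.exp (σ / 2) ^ 2 := by
    rw [← Real.exp_nat_mul]
    congr 1
    push_cast
    ring
  rw [h1]
  exact pow_le_pow_left₀ (Real.exp_pos _).le (ki_exp_le σ) 2

theorem ki_a_int : Integrable fun σ : ℝ => Real.exp σ / cc σ ^ 3 := by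
  refine ((int_inv (n := 1) le_rfl)).mono' ?_ (Eventually.of_forall fun σ => ?_)
  · exact (Real.continuous_exp.div (cont_cc.pow 3) fun τ => pow_ne_zero 3 (cc_pos τ).ne').aestronglyMeasurable
  · have h1 := cc_pos σ
    have h2 := ki_exp1_le σ
    rw [Real.norm_eq_abs, abs_of_pos (by positivity), div_le_div_iff₀ (by positivity) (by positivity)]
    calc Real.exp σ * cc σ ^ 1 ≤ cc σ ^ 2 * cc σ ^ 1 := mul_le_mul_of_nonneg_right h2 (by positivity)
      _ = 1 * cc σ ^ 3 := by ring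

theorem ki_b_int : Integrable fun σ : ℝ => Real.exp (-σ) / cc σ ^ 3 := by
  have h := ki_a_int.comp_neg
  refine h.congr (Eventually.of_forall fun σ => ?_)
  simp only [cc_neg]

theorem ki_ab : ∫ σ : ℝ, Real.exp (-σ) / cc σ ^ 3 = ∫ σ : ℝ, Real.exp σ / cc σ ^ 3 := by
  have h := integral_neg_eq_self (fun σ : ℝ => Real.exp σ / cc σ ^ 3) volume
  rw [← h]
  refine integral_congr_ae (Eventually.of_forall fun σ => ?_)
  simp only [cc_neg]

theorem ki_a : ∫ σ : ℝ, Real.exp σ / cc σ ^ 3 = 3 * π / 8 := by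
  have i1 := (int_inv (n := 1) le_rfl)
  have i3 := (int_inv (n := 3) (by norm_num))
  have h : (∫ σ : ℝ, Real.exp σ / cc σ ^ 3) + ∫ σ : ℝ, Real.exp (-σ) / cc σ ^ 3 =
      ∫ σ : ℝ, (1 / cc σ ^ 1 - 2 * (1 / cc σ ^ 3)) := by
    rw [← integral_add ki_a_int ki_b_int]
    refine integral_congr_ae (Eventually.of_forall fun σ => ?_)
    simp only
    have h1 := cc_pos σ
    rw [← add_div, ki_e1]
    field_simp
  rw [ki_ab, integral_sub i1 (i3.const_mul 2), integral_const_mul, ki1, ki3] at h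
  linarith

theorem ki_b : ∫ σ : ℝ, Real.exp (-σ) / cc σ ^ 3 = 3 * π / 8 := by rw [ki_ab, ki_a]

theorem ki_c_int : Integrable fun σ : ℝ => Real.exp (σ / 2) / cc σ ^ 4 := by
  refine ((int_inv (n := 3) (by norm_num))).mono' ?_ (Eventually.of_forall fun σ => ?_)
  · exact ((Real.continuous_exp.comp (continuous_id.div_const 2)).div (cont_cc.pow 4)
      fun τ => pow_ne_zero 4 (cc_pos τ).ne').aestronglyMeasurable
  · have h1 := cc_pos σ
    have h2 := ki_exp_le σ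
    rw [Real.norm_eq_abs, abs_of_pos (by positivity), div_le_div_iff₀ (by positivity) (by positivity)]
    calc Real.exp (σ / 2) * cc σ ^ 3 ≤ cc σ * cc σ ^ 3 := mul_le_mul_of_nonneg_right h2 (by positivity)
      _ = 1 * cc σ ^ 4 := by ring

theorem ki_d_int : Integrable fun σ : ℝ => Real.exp (-(σ / 2)) / cc σ ^ 4 := by
  have h := ki_c_int.comp_neg
  refine h.congr (Eventually.of_forall fun σ => ?_)
  simp only [cc_neg, neg_div]

theorem ki_cd : ∫ σ : ℝ, Real.exp (-(σ / 2)) / cc σ ^ 4 = ∫ σ : ℝ, Real.exp (σ / 2) / cc σ ^ 4 := by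
  have h := integral_neg_eq_self (fun σ : ℝ => Real.exp (σ / 2) / cc σ ^ 4) volume
  rw [← h]
  refine integral_congr_ae (Eventually.of_forall fun σ => ?_)
  simp only [cc_neg, neg_div]

theorem ki_c : ∫ σ : ℝ, Real.exp (σ / 2) / cc σ ^ 4 = π / 16 := by
  have h : (∫ σ : ℝ, Real.exp (σ / 2) / cc σ ^ 4) + ∫ σ : ℝ, Real.exp (-(σ / 2)) / cc σ ^ 4 =
      ∫ σ : ℝ, 1 / cc σ ^ 3 := by
    rw [← integral_add ki_c_int ki_d_int]
    refine integral_congr_ae (Eventually.of_forall fun σ => ?_)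
    simp only
    have h1 := cc_pos σ
    rw [← add_div, ← cc_eq]
    field_simp
  rw [ki_cd, ki3] at h
  linarith

theorem ki_d : ∫ σ : ℝ, Real.exp (-(σ / 2)) / cc σ ^ 4 = π / 16 := by rw [ki_cd, ki_c]

end Pool.Agent.H45.DE
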