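import Pool.Agent.H45.DE.KInt

/-!
# DE (helper45): explicit double tails
-/

set_option autoImplicit false
open Real Set MeasureTheory Filter Topology

namespace Pool.Agent.H45.DE
open Pool.Agent.H51.DG Pool.Agent.H90.DC

theorem dtail {κ G : ℝ → ℝ → ℝ} {F : ℝ → ℝ} {r0 s0 : ℝ}
    (hκ : IntegrableOn (fun z : ℝ × ℝ => κ (Real.exp z.1) (Real.exp z.2)) (Ioi r0 ×ˢ Ioi s0))
    (hG : ∀ X Z, 0 < X → 0 < Z → HasDerivAt (fun Z => G X Z) (κ X Z / Z) Z)
    (hG0 : ∀ X, 0 < X → Tendsto (G X) atTop (𝓝 0))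
    (hF : ∀ X, 0 < X → HasDerivAt F (G X (Real.exp s0) / X) X)
    (hF0 : Tendsto F atTop (𝓝 0)) :
    ∫ z in Ioi r0 ×ˢ Ioi s0, κ (Real.exp z.1) (Real.exp z.2) = F (Real.exp r0) := by
  have hexp : Tendsto Real.exp atTop atTop := Real.tendsto_exp_atTop
  have h1 : Integrable (fun z : ℝ × ℝ => κ (Real.exp z.1) (Real.exp z.2))
      ((volume.restrict (Ioi r0)).prod (volume.restrict (Ioi s0))) := by
    rw [Measure.prod_restrict]
    exact hκ
  have h2 : ∀ᵐ r ∂(volume.restrict (Ioi r0)),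
      ∫ s in Ioi s0, κ (Real.exp r) (Real.exp s) = -G (Real.exp r) (Real.exp s0) := by
    filter_upwards [h1.prod_right_ae] with r hr
    have hd : ∀ s ∈ Ici s0, HasDerivAt (fun s => G (Real.exp r) (Real.exp s))
        (κ (Real.exp r) (Real.exp s)) s := by
      intro s _
      have h3 := (hG (Real.exp r) (Real.exp s) (Real.exp_pos _) (Real.exp_pos _)).comp s
        (Real.hasDerivAt_exp s)
      refine h3.congr_deriv ?_
      have := Real.exp_pos s
      field_simp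
    have h4 := integral_Ioi_of_hasDerivAt_of_tendsto' hd hr ((hG0 _ (Real.exp_pos r)).comp hexp)
    rw [h4]
    ring
  have h3 : ∫ z in Ioi r0 ×ˢ Ioi s0, κ (Real.exp z.1) (Real.exp z.2) =
      ∫ r in Ioi r0, ∫ s in Ioi s0, κ (Real.exp r) (Real.exp s) := by
    rw [Measure.volume_eq_prod, ← Measure.prod_restrict, integral_prod _ h1]
  have h4 : Integrable (fun r => ∫ s in Ioi s0, κ (Real.exp r) (Real.exp s))
      (volume.restrict (Ioi r0)) := h1.integral_prod_left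
  have h5 : Integrable (fun r => -G (Real.exp r) (Real.exp s0)) (volume.restrict (Ioi r0)) :=
    h4.congr h2
  rw [h3, integral_congr_ae h2]
  have hd : ∀ r ∈ Ici r0, HasDerivAt (fun r => -F (Real.exp r)) (-G (Real.exp r) (Real.exp s0)) r := by
    intro r _
    have h6 := ((hF (Real.exp r) (Real.exp_pos _)).comp r (Real.hasDerivAt_exp r)).neg
    refine h6.congr_deriv ?_
    have := Real.exp_pos r
    field_simp
  have h7 := integral_Ioi_of_hasDerivAt_of_tendsto' hd h5 ((hF0.comp hexp).neg)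
  rw [h7]
  ring

/-- `(XZ) ∂_X ∂_Z` of `1/2 (1/X + 1/Z)/S² - (23/6)/S³`, `S = X + Z + P` -/
noncomputable def kP (P X Z : ℝ) : ℝ :=
  (X ^ 2 + Z ^ 2) / (X * Z * (X + Z + P) ^ 3) + 3 * (X + Z) / (X + Z + P) ^ 4 -
    46 * (X * Z) / (X + Z + P) ^ 5

/-- `(XZ) ∂_X ∂_Z` of `L0 (Z, X)` -/
noncomputable def kb (X Z : ℝ) : ℝ := (3 * Z + X) / (Z * (X + Z) ^ 3)

/-- `(XZ) ∂_X ∂_Z` of `9/(X+Z)³` -/
noncomputable def k9 (X Z : ℝ) : ℝ := 108 * (X * Z) / (X + Z) ^ 5

/-- `L0 (X, M) = [log (1 + X/M) - X/(X+M)]/X³` -/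
noncomputable def L0 (X M : ℝ) : ℝ := (Real.log (1 + X / M) - X / (X + M)) / X ^ 3

theorem dt_inv (c : ℝ) : Tendsto (fun X : ℝ => (X + c)⁻¹) atTop (𝓝 0) :=
  tendsto_inv_atTop_zero.comp (tendsto_atTop_add_const_right _ c tendsto_id)

theorem dt_inv0 : Tendsto (fun X : ℝ => X⁻¹) atTop (𝓝 0) := tendsto_inv_atTop_zero

/-- the tail of `kP` -/
theorem tail_kP {P : ℝ} (hP : 0 ≤ P) {r0 s0 : ℝ}
    (hκ : IntegrableOn (fun z : ℝ × ℝ => kP P (Real.exp z.1) (Real.exp z.2)) (Ioi r0 ×ˢ Ioi s0)) :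
    ∫ z in Ioi r0 ×ˢ Ioi s0, kP P (Real.exp z.1) (Real.exp z.2) =
      1 / 2 * (1 / Real.exp r0 + 1 / Real.exp s0) / (Real.exp r0 + Real.exp s0 + P) ^ 2 -
        23 / 6 / (Real.exp r0 + Real.exp s0 + P) ^ 3 := by
  have hz := Real.exp_pos s0
  refine dtail (κ := kP P) (G := fun X Z => -(1 / 2) / (X * (X + Z + P) ^ 2) -
    (1 + X / Z) / (X + Z + P) ^ 3 + 23 / 2 * X / (X + Z + P) ^ 4)
    (F := fun X => 1 / 2 * (1 / X + 1 / Real.exp s0) / (X + Real.exp s0 + P) ^ 2 -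
        23 / 6 / (X + Real.exp s0 + P) ^ 3) hκ ?_ ?_ ?_ ?_
  · intro X Z hX hZ
    have hS : 0 < X + Z + P := by positivity
    have dS : HasDerivAt (fun Z => X + Z + P) 1 Z := ((hasDerivAt_id Z).const_add X).add_const P
    have d2 : HasDerivAt (fun Z => X * (X + Z + P) ^ 2) (X * (2 * (X + Z + P) * 1)) Z := by
      simpa using (dS.fun_pow 2).const_mul X
    have d3 : HasDerivAt (fun Z => (X + Z + P) ^ 3) (3 * (X + Z + P) ^ 2 * 1) Z := by
      simpa using dS.fun_pow 3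
    have d4 : HasDerivAt (fun Z => (X + Z + P) ^ 4) (4 * (X + Z + P) ^ 3 * 1) Z := by
      simpa using dS.fun_pow 4
    have dZ : HasDerivAt (fun Z : ℝ => 1 + X / Z) (X * (-(Z ^ 2)⁻¹)) Z := by
      have := ((hasDerivAt_inv hZ.ne').const_mul X).const_add 1
      simpa [div_eq_mul_inv] using this
    have h := (((hasDerivAt_const Z (-(1 / 2 : ℝ))).div d2 (by positivity)).sub
      (dZ.div d3 (by positivity))).add ((hasDerivAt_const Z (23 / 2 * X)).div d4 (by positivity))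
    refine h.congr_deriv ?_
    unfold kP
    field_simp
    ring
  · intro X hX
    have hS : Tendsto (fun Z : ℝ => (X + Z + P)⁻¹) atTop (𝓝 0) := by
      have := dt_inv (X + P)
      refine this.congr fun Z => ?_
      congr 1
      ring
    have h1 : Tendsto (fun Z : ℝ => -(1 / 2) / X * ((X + Z + P)⁻¹) ^ 2 -
        (1 + X * Z⁻¹) * ((X + Z + P)⁻¹) ^ 3 + 23 / 2 * X * ((X + Z + P)⁻¹) ^ 4) atTop
        (𝓝 (-(1 / 2) / X * 0 ^ 2 - (1 + X * 0) * 0 ^ 3 + 23 / 2 * X * 0 ^ 4)) :=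
      (((hS.pow 2).const_mul _).sub (((dt_inv0.const_mul X).const_add 1).mul (hS.pow 3))).add
        ((hS.pow 4).const_mul _)
    have e : -(1 / 2) / X * 0 ^ 2 - (1 + X * 0) * 0 ^ 3 + 23 / 2 * X * 0 ^ 4 = (0:ℝ) := by ring
    rw [e] at h1
    refine h1.congr fun Z => ?_
    simp only [div_eq_mul_inv, mul_inv, inv_pow]
    ring
  · intro X hX
    have hS : 0 < X + Real.exp s0 + P := by positivity
    have dS : HasDerivAt (fun X => X + Real.exp s0 + P) 1 X :=
      ((hasDerivAt_id X).add_const _).add_const P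
    have d2 : HasDerivAt (fun X => (X + Real.exp s0 + P) ^ 2) (2 * (X + Real.exp s0 + P) * 1) X := by
      simpa using dS.fun_pow 2
    have d3 : HasDerivAt (fun X => (X + Real.exp s0 + P) ^ 3) (3 * (X + Real.exp s0 + P) ^ 2 * 1) X := by
      simpa using dS.fun_pow 3
    have dX : HasDerivAt (fun X : ℝ => 1 / 2 * (1 / X + 1 / Real.exp s0)) (1 / 2 * (-(X ^ 2)⁻¹)) X := by
      have := ((hasDerivAt_inv hX.ne').add_const (1 / Real.exp s0)).const_mul (1 / 2)
      simpa [div_eq_mul_inv] using this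
    have h := (dX.div d2 (by positivity)).sub ((hasDerivAt_const X (23 / 6 : ℝ)).div d3 (by positivity))
    refine h.congr_deriv ?_
    field_simp
    ring
  · have hS : Tendsto (fun X : ℝ => (X + Real.exp s0 + P)⁻¹) atTop (𝓝 0) := by
      have := dt_inv (Real.exp s0 + P)
      refine this.congr fun Z => ?_
      congr 1
      ring
    have h1 : Tendsto (fun X : ℝ => 1 / 2 * (X⁻¹ + 1 / Real.exp s0) * ((X + Real.exp s0 + P)⁻¹) ^ 2 -
        23 / 6 * ((X + Real.exp s0 + P)⁻¹) ^ 3) atTop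
        (𝓝 (1 / 2 * (0 + 1 / Real.exp s0) * 0 ^ 2 - 23 / 6 * 0 ^ 3)) :=
      (((dt_inv0.add_const _).const_mul _).mul (hS.pow 2)).sub ((hS.pow 3).const_mul _)
    have e : 1 / 2 * (0 + 1 / Real.exp s0) * 0 ^ 2 - 23 / 6 * 0 ^ 3 = (0:ℝ) := by ring
    rw [e] at h1
    refine h1.congr fun Z => ?_
    simp only [div_eq_mul_inv, inv_pow]
    ring

/-- the tail of `kb` -/
theorem tail_kb {r0 s0 : ℝ}
    (hκ : IntegrableOn (fun z : ℝ × ℝ => kb (Real.exp z.1) (Real.exp z.2)) (Ioi r0 ×ˢ Ioi s0)) :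
    ∫ z in Ioi r0 ×ˢ Ioi s0, kb (Real.exp z.1) (Real.exp z.2) =
      L0 (Real.exp s0) (Real.exp r0) := by
  have hz := Real.exp_pos s0
  refine dtail (κ := kb) (G := fun X Z => -1 / (Z * (X + Z) ^ 2))
    (F := fun X => L0 (Real.exp s0) X) hκ ?_ ?_ ?_ ?_
  · intro X Z hX hZ
    have dS : HasDerivAt (fun Z => X + Z) 1 Z := (hasDerivAt_id Z).const_add X
    have d2 : HasDerivAt (fun Z => (X + Z) ^ 2) (2 * (X + Z) * 1) Z := by simpa using dS.fun_pow 2
    have d3 : HasDerivAt (fun Z => Z * (X + Z) ^ 2) (1 * (X + Z) ^ 2 + Z * (2 * (X + Z) * 1)) Z := by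
      simpa using (hasDerivAt_id Z).fun_mul d2
    refine ((hasDerivAt_const Z (-1 : ℝ)).div d3 (by positivity)).congr_deriv ?_
    unfold kb
    field_simp
    ring
  · intro X hX
    have hS : Tendsto (fun Z : ℝ => (X + Z)⁻¹) atTop (𝓝 0) := by
      refine (dt_inv X).congr fun Z => ?_
      rw [add_comm]
    have h1 : Tendsto (fun Z : ℝ => -1 * (Z⁻¹ * ((X + Z)⁻¹) ^ 2)) atTop (𝓝 (-1 * (0 * 0 ^ 2))) :=
      (dt_inv0.mul (hS.pow 2)).const_mul _
    have e : -1 * (0 * 0 ^ 2) = (0:ℝ) := by ring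
    rw [e] at h1
    refine h1.congr fun Z => ?_
    simp only [div_eq_mul_inv, mul_inv, inv_pow]
  · intro X hX
    have d1 : HasDerivAt (fun X => 1 + Real.exp s0 / X) (Real.exp s0 * (-(X ^ 2)⁻¹)) X := by
      have := ((hasDerivAt_inv hX.ne').const_mul (Real.exp s0)).const_add 1
      simpa [div_eq_mul_inv] using this
    have d2 := d1.log (by positivity)
    have d3 : HasDerivAt (fun X => Real.exp s0 + X) 1 X := (hasDerivAt_id X).const_add _
    have d4 := (hasDerivAt_const X (Real.exp s0)).div d3 (by positivity)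
    have h := (d2.sub d4).div_const (Real.exp s0 ^ 3)
    unfold L0
    refine h.congr_deriv ?_
    field_simp
    ring
  · have h0 : Tendsto (fun X : ℝ => 1 + Real.exp s0 * X⁻¹) atTop (𝓝 (1 + Real.exp s0 * 0)) :=
      (dt_inv0.const_mul _).const_add 1
    rw [mul_zero, add_zero] at h0
    have h1 := (Real.continuousAt_log (one_ne_zero)).tendsto.comp h0
    rw [Real.log_one] at h1
    have h2 : Tendsto (fun X : ℝ => Real.exp s0 * (Real.exp s0 + X)⁻¹) atTop (𝓝 (Real.exp s0 * 0)) := by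
      refine Tendsto.const_mul _ ?_
      refine (dt_inv (Real.exp s0)).congr fun Z => ?_
      rw [add_comm]
    have h3 := (h1.sub h2).div_const (Real.exp s0 ^ 3)
    have e : (0 - Real.exp s0 * 0) / Real.exp s0 ^ 3 = 0 := by simp
    rw [e] at h3
    refine h3.congr fun X => ?_
    unfold L0
    simp only [Function.comp, div_eq_mul_inv]

/-- the tail of `k9` -/
theorem tail_k9 {r0 s0 : ℝ}
    (hκ : IntegrableOn (fun z : ℝ × ℝ => k9 (Real.exp z.1) (Real.exp z.2)) (Ioi r0 ×ˢ Ioi s0)) :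
    ∫ z in Ioi r0 ×ˢ Ioi s0, k9 (Real.exp z.1) (Real.exp z.2) =
      9 / (Real.exp r0 + Real.exp s0) ^ 3 := by
  have hz := Real.exp_pos s0
  refine dtail (κ := k9) (G := fun X Z => -27 * X / (X + Z) ^ 4)
    (F := fun X => 9 / (X + Real.exp s0) ^ 3) hκ ?_ ?_ ?_ ?_
  · intro X Z hX hZ
    have dS : HasDerivAt (fun Z => X + Z) 1 Z := (hasDerivAt_id Z).const_add X
    have d4 : HasDerivAt (fun Z => (X + Z) ^ 4) (4 * (X + Z) ^ 3 * 1) Z := by simpa using dS.fun_pow 4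
    refine ((hasDerivAt_const Z (-27 * X : ℝ)).div d4 (by positivity)).congr_deriv ?_
    unfold k9
    field_simp
    ring
  · intro X hX
    have hS : Tendsto (fun Z : ℝ => (X + Z)⁻¹) atTop (𝓝 0) := by
      refine (dt_inv X).congr fun Z => ?_
      rw [add_comm]
    have h1 : Tendsto (fun Z : ℝ => -27 * X * ((X + Z)⁻¹) ^ 4) atTop (𝓝 (-27 * X * 0 ^ 4)) :=
      (hS.pow 4).const_mul _
    have e : -27 * X * 0 ^ 4 = (0:ℝ) := by ring
    rw [e] at h1
    refine h1.congr fun Z => ?_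
    simp only [div_eq_mul_inv, inv_pow]
  · intro X hX
    have dS : HasDerivAt (fun X => X + Real.exp s0) 1 X := (hasDerivAt_id X).add_const _
    have d3 : HasDerivAt (fun X => (X + Real.exp s0) ^ 3) (3 * (X + Real.exp s0) ^ 2 * 1) X := by
      simpa using dS.fun_pow 3
    refine ((hasDerivAt_const X (9 : ℝ)).div d3 (by positivity)).congr_deriv ?_
    field_simp
    ring
  · have hS := dt_inv (Real.exp s0)
    have h1 : Tendsto (fun X : ℝ => 9 * ((X + Real.exp s0)⁻¹) ^ 3) atTop (𝓝 (9 * 0 ^ 3)) :=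
      (hS.pow 3).const_mul _
    have e : 9 * 0 ^ 3 = (0:ℝ) := by ring
    rw [e] at h1
    refine h1.congr fun Z => ?_
    simp only [div_eq_mul_inv, inv_pow]

end Pool.Agent.H45.DE
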