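import Pool.Agent.H90.DC.KBase

/-!
# DE (helper45): integrability of `f r * g (r - s)` on the plane
-/

set_option autoImplicit false
open Real Set MeasureTheory Filter Topology

namespace Pool.Agent.H45.DE
open Pool.Agent.H51.DG Pool.Agent.H90.DC

theorem shr2 {f g : ℝ → ℝ} (hf : Integrable f) (hg : Integrable g) :
    Integrable (fun z : ℝ × ℝ => f z.2 * g (z.1 - z.2)) := by
  have h := hf.convolution_integrand (ContinuousLinearMap.mul ℝ ℝ) hg
  exact h

theorem shr1 {f g : ℝ → ℝ} (hf : Integrable f) (hg : Integrable g) :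
    Integrable (fun z : ℝ × ℝ => f z.1 * g (z.1 - z.2)) := by
  have h := (shr2 hf hg.comp_neg).swap
  refine h.congr (Eventually.of_forall fun z => ?_)
  simp [Function.comp]

theorem shr_cc : Integrable fun τ : ℝ => 1 / cc τ := by
  have h1 := int_inv (n := 1) le_rfl
  simpa only [pow_one] using h1

/-- a kernel bounded by `C/cc (r - s)`, times an integrable function of `r` -/
theorem shr_k1 {E : ℝ × ℝ → ℝ} (hE : AEStronglyMeasurable E) {C : ℝ}
    (hb : ∀ z, |E z| ≤ C / cc (z.1 - z.2)) {f : ℝ → ℝ} (hf : Integrable f) :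
    Integrable (fun z : ℝ × ℝ => E z * f z.1) := by
  have h := ((shr1 hf.abs shr_cc)).const_mul C
  refine h.mono' (hE.mul hf.1.comp_fst) (Eventually.of_forall fun z => ?_)
  rw [Real.norm_eq_abs, abs_mul]
  calc |E z| * |f z.1| ≤ C / cc (z.1 - z.2) * |f z.1| :=
        mul_le_mul_of_nonneg_right (hb z) (abs_nonneg _)
    _ = C * (|f z.1| * (1 / cc (z.1 - z.2))) := by ring

theorem shr_k2 {E : ℝ × ℝ → ℝ} (hE : AEStronglyMeasurable E) {C : ℝ}
    (hb : ∀ z, |E z| ≤ C / cc (z.1 - z.2)) {f : ℝ → ℝ} (hf : Integrable f) :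
    Integrable (fun z : ℝ × ℝ => E z * f z.2) := by
  have h := ((shr2 hf.abs shr_cc)).const_mul C
  refine h.mono' (hE.mul hf.1.comp_snd) (Eventually.of_forall fun z => ?_)
  rw [Real.norm_eq_abs, abs_mul]
  calc |E z| * |f z.2| ≤ C / cc (z.1 - z.2) * |f z.2| :=
        mul_le_mul_of_nonneg_right (hb z) (abs_nonneg _)
    _ = C * (|f z.2| * (1 / cc (z.1 - z.2))) := by ring

theorem shr_A {A A' : ℝ → ℝ} (hA : Adm A A') : Integrable A ∧ Integrable fun r => A r ^ 2 := by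
  obtain ⟨K, κ, hκ, hb⟩ := hA.dec
  have hc := ND_cont hA
  have hK : 0 ≤ K := by
    have := (abs_nonneg _).trans (hb 0).1
    simpa using this
  refine ⟨ND_integrable_of_bd hc hκ fun r => (hb r).1, ?_⟩
  refine ND_integrable_of_bd (hc.pow 2) (K := K ^ 2) (κ := κ) hκ fun r => ?_
  have h1 := (hb r).1
  have h2 : Real.exp (-(κ * |r|)) ≤ 1 := Real.exp_le_one_iff.mpr (by
    have := mul_nonneg hκ.le (abs_nonneg r)
    linarith)
  have h3 := Real.exp_pos (-(κ * |r|))
  simp only [abs_pow]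
  calc |A r| ^ 2 ≤ (K * Real.exp (-(κ * |r|))) ^ 2 := pow_le_pow_left₀ (abs_nonneg _) h1 2
    _ = K ^ 2 * Real.exp (-(κ * |r|)) * Real.exp (-(κ * |r|)) := by ring
    _ ≤ K ^ 2 * Real.exp (-(κ * |r|)) * 1 := mul_le_mul_of_nonneg_left h2 (by positivity)
    _ = K ^ 2 * Real.exp (-(κ * |r|)) := mul_one _

/-- kernel times `(A r - A s)²` -/
theorem shr_diff {E : ℝ × ℝ → ℝ} (hE : AEStronglyMeasurable E) {C : ℝ}
    (hb : ∀ z, |E z| ≤ C / cc (z.1 - z.2)) {A A' : ℝ → ℝ} (hA : Adm A A') :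
    Integrable (fun z : ℝ × ℝ => E z * (A z.1 - A z.2) ^ 2) := by
  obtain ⟨i1, i2⟩ := shr_A hA
  have h1 := shr_k1 hE hb i2
  have h2 := shr_k2 hE hb i2
  have hm : AEStronglyMeasurable (fun z : ℝ × ℝ => E z * (A z.1 - A z.2) ^ 2) :=
    hE.mul ((((ND_cont hA).comp continuous_fst).sub
      ((ND_cont hA).comp continuous_snd)).pow 2).aestronglyMeasurable
  refine (((h1.abs.add h2.abs).const_mul 2)).mono' hm (Eventually.of_forall fun z => ?_)
  simp only [Real.norm_eq_abs, Pi.add_apply]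
  rw [abs_mul, abs_mul, abs_mul, abs_of_nonneg (sq_nonneg (A z.1 - A z.2)),
    abs_of_nonneg (sq_nonneg (A z.1)), abs_of_nonneg (sq_nonneg (A z.2))]
  have h3 : (A z.1 - A z.2) ^ 2 ≤ 2 * (A z.1 ^ 2 + A z.2 ^ 2) := by
    nlinarith [sq_nonneg (A z.1 + A z.2)]
  have h4 := mul_le_mul_of_nonneg_left h3 (abs_nonneg (E z))
  linarith

end Pool.Agent.H45.DE
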