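import Pool.Agent.H51.DG.NF
import Pool.Agent.H51.DG.SEv

/-!
# DE (helper45): double tail lemma

`K (ct x) (ct y) = ∫_{r > -log (ct x), s > -log (ct y)} κ` implies
`form a b K = ∫∫ κ (r,s) MMb a r * MMb b s` (Fubini).
-/

set_option autoImplicit false
open Real Set MeasureTheory Filter Topology

namespace Pool.Agent.H45.DE
open Pool.Agent.H51.DG

theorem tl_cont_th : Continuous th := by
  unfold th
  exact continuous_const.mul (Real.continuous_arctan.comp Real.continuous_exp)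

/-- `x < th r` iff `-log (ct x) < r` -/
theorem tl_lt_iff {x r : ℝ} (h0 : 0 < x) (h1 : x < π) : x < th r ↔ -Real.log (ct x) < r := by
  have hm := th_mem r
  have hc := ct_pos h0 h1
  have hr : -r = Real.log (ct (th r)) := by rw [ct_th, Real.log_exp]
  have hct : 0 < ct (th r) := ct_pos hm.1 hm.2
  constructor
  · intro h
    have h2 := ct_lt h0 h (by linarith [hm.2, Real.pi_pos])
    have h3 := Real.log_lt_log hct h2
    linarith
  · intro h
    by_contra hcon
    have hcon' : th r ≤ x := not_lt.mp hcon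
    rcases eq_or_lt_of_le hcon' with he | hl
    · rw [← he, ← hr] at h
      linarith
    · have h2 := ct_lt hm.1 hl (by linarith [Real.pi_pos])
      have h3 := Real.log_lt_log hc h2
      linarith

/-- extension of a `Bd` function restricted to `(0,π)` -/
theorem tl_int {a : ℝ → ℝ} (ha : Bd a) : IntegrableOn a (Ioo (0:ℝ) π) :=
  (ha.c.integrableOn_Icc (a := 0) (b := π)).mono_set Ioo_subset_Icc_self

theorem tl_MMb {a : ℝ → ℝ} (r : ℝ) : ∫ x in Ioo (0:ℝ) (th r), a x = MMb a r := by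
  unfold MMb
  rw [intervalIntegral.integral_of_le (th_mem r).1.le, integral_Ioc_eq_integral_Ioo]

theorem form_tail {a b : ℝ → ℝ} (ha : Bd a) (hb : Bd b) {κ : ℝ × ℝ → ℝ}
    (hi : ∀ r0 s0 : ℝ, IntegrableOn κ (Ioi r0 ×ˢ Ioi s0)) {K : ℝ → ℝ → ℝ}
    (hK : ∀ x ∈ Ioo (0:ℝ) π, ∀ y ∈ Ioo (0:ℝ) π, K (ct x) (ct y) =
      ∫ z in Ioi (-Real.log (ct x)) ×ˢ Ioi (-Real.log (ct y)), κ z) :
    FInt a b K ∧ Integrable (fun z : ℝ × ℝ => κ z * (MMb a z.1 * MMb b z.2)) ∧
      form a b K = ∫ z : ℝ × ℝ, κ z * (MMb a z.1 * MMb b z.2) := by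
  obtain ⟨δ1, hδ1, hz1⟩ := ha.z
  obtain ⟨δ2, hδ2, hz2⟩ := hb.z
  -- a common point
  set d : ℝ := min (min δ1 δ2) 1 with hd
  have hd0 : 0 < d := lt_min (lt_min hδ1 hδ2) one_pos
  have hd1 : d < π := by
    have := Real.pi_gt_three
    have h2 : d ≤ 1 := min_le_right _ _
    linarith
  have hza : ∀ x, 0 ≤ x → x ≤ d → a x = 0 := fun x h0 h1 =>
    hz1 x h0 (h1.trans ((min_le_left _ _).trans (min_le_left _ _)))
  have hzb : ∀ x, 0 ≤ x → x ≤ d → b x = 0 := fun x h0 h1 =>
    hz2 x h0 (h1.trans ((min_le_left _ _).trans (min_le_right _ _)))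
  set r0 := -Real.log (ct d) with hr0
  set Q : Set (ℝ × ℝ) := Ioi r0 ×ˢ Ioi r0 with hQ
  have hQm : MeasurableSet Q := measurableSet_Ioi.prod measurableSet_Ioi
  set S1 : Set (ℝ × ℝ) := Ioo (0:ℝ) π ×ˢ Ioo (0:ℝ) π with hS1
  have hS1m : MeasurableSet S1 := measurableSet_Ioo.prod measurableSet_Ioo
  set S : Set ((ℝ × ℝ) × (ℝ × ℝ)) := {w | w.1.1 < th w.2.1 ∧ w.1.2 < th w.2.2} with hS
  have hSm : MeasurableSet S := by
    apply MeasurableSet.inter
    · exact (isOpen_lt (continuous_fst.comp continuous_fst)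
        (tl_cont_th.comp (continuous_fst.comp continuous_snd))).measurableSet
    · exact (isOpen_lt (continuous_snd.comp continuous_fst)
        (tl_cont_th.comp (continuous_snd.comp continuous_snd))).measurableSet
  -- the big function
  have hab : Integrable (fun z : ℝ × ℝ => a z.1 * b z.2) (volume.restrict S1) := by
    have h1 : Integrable a (volume.restrict (Ioo (0:ℝ) π)) := tl_int ha
    have h2 : Integrable b (volume.restrict (Ioo (0:ℝ) π)) := tl_int hb
    have h3 := h1.mul_prod h2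
    rwa [Measure.prod_restrict] at h3
  have hκ : Integrable (Q.indicator κ) := by
    rw [integrable_indicator_iff hQm]
    exact hi r0 r0
  have hbig : Integrable (fun w : (ℝ × ℝ) × (ℝ × ℝ) => (a w.1.1 * b w.1.2) * Q.indicator κ w.2)
      ((volume.restrict S1).prod volume) := hab.mul_prod hκ
  set F : (ℝ × ℝ) × (ℝ × ℝ) → ℝ :=
    S.indicator (fun w => (a w.1.1 * b w.1.2) * Q.indicator κ w.2) with hF
  have hFi : Integrable F ((volume.restrict S1).prod volume) := hbig.indicator hSm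
  -- pointwise: inside S1 the indicator of Q may be dropped
  have hdrop : ∀ x ∈ Ioo (0:ℝ) π, ∀ y ∈ Ioo (0:ℝ) π, ∀ z : ℝ × ℝ,
      F ((x, y), z) = (Ioi (-Real.log (ct x)) ×ˢ Ioi (-Real.log (ct y))).indicator
        (fun z => (a x * b y) * κ z) z := by
    intro x hx y hy z
    have hiff : ((x, y), z) ∈ S ↔ z ∈ Ioi (-Real.log (ct x)) ×ˢ Ioi (-Real.log (ct y)) := by
      simp only [hS, mem_ofPred_eq, mem_prod, mem_Ioi]
      rw [tl_lt_iff hx.1 hx.2, tl_lt_iff hy.1 hy.2]
    by_cases hz : z ∈ Ioi (-Real.log (ct x)) ×ˢ Ioi (-Real.log (ct y))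
    · rw [indicator_of_mem hz, hF, indicator_of_mem (hiff.mpr hz)]
      by_cases hxd : x ≤ d
      · simp [hza x hx.1.le hxd]
      · by_cases hyd : y ≤ d
        · simp [hzb y hy.1.le hyd]
        · push Not at hxd hyd
          have k1 : r0 < -Real.log (ct x) := by
            have e1 := ct_lt hd0 hxd (by linarith [hx.2, Real.pi_pos])
            have e2 := Real.log_lt_log (ct_pos hx.1 hx.2) e1
            rw [hr0]
            linarith
          have k2 : r0 < -Real.log (ct y) := by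
            have e1 := ct_lt hd0 hyd (by linarith [hy.2, Real.pi_pos])
            have e2 := Real.log_lt_log (ct_pos hy.1 hy.2) e1
            rw [hr0]
            linarith
          have hzQ : z ∈ Q := by
            rw [hQ]
            exact ⟨k1.trans hz.1, k2.trans hz.2⟩
          simp only
          rw [indicator_of_mem hzQ]
    · rw [indicator_of_notMem hz, hF, indicator_of_notMem (fun h => hz (hiff.mp h))]
  -- the inner integral over (r,s)
  have hin : ∀ x ∈ Ioo (0:ℝ) π, ∀ y ∈ Ioo (0:ℝ) π,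
      ∫ z : ℝ × ℝ, F ((x, y), z) = a x * b y * K (ct x) (ct y) := by
    intro x hx y hy
    rw [hK x hx y hy]
    simp_rw [hdrop x hx y hy]
    rw [integral_indicator (measurableSet_Ioi.prod measurableSet_Ioi), integral_const_mul]
  -- the inner integral over (x,y)
  have hin2 : ∀ z : ℝ × ℝ, ∫ v in S1, F (v, z) = κ z * (MMb a z.1 * MMb b z.2) := by
    intro z
    have h1 : ∀ v : ℝ × ℝ, v ∈ S1 → F (v, z) =
        (Ioo (0:ℝ) (th z.1) ×ˢ Ioo (0:ℝ) (th z.2)).indicator
          (fun v : ℝ × ℝ => κ z * (a v.1 * b v.2)) v := by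
      intro v hv
      obtain ⟨x, y⟩ := v
      have hx : x ∈ Ioo (0:ℝ) π := hv.1
      have hy : y ∈ Ioo (0:ℝ) π := hv.2
      rw [hdrop x hx y hy z]
      by_cases hz : z ∈ Ioi (-Real.log (ct x)) ×ˢ Ioi (-Real.log (ct y))
      · have hz1 := (tl_lt_iff hx.1 hx.2).mpr hz.1
        have hz2 := (tl_lt_iff hy.1 hy.2).mpr hz.2
        have hmem : (x, y) ∈ Ioo (0:ℝ) (th z.1) ×ˢ Ioo (0:ℝ) (th z.2) := ⟨⟨hx.1, hz1⟩, ⟨hy.1, hz2⟩⟩
        rw [indicator_of_mem hz, indicator_of_mem hmem]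
        ring
      · rw [indicator_of_notMem hz, indicator_of_notMem]
        intro hmem
        exact hz ⟨(tl_lt_iff hx.1 hx.2).mp hmem.1.2, (tl_lt_iff hy.1 hy.2).mp hmem.2.2⟩
    rw [setIntegral_congr_fun hS1m h1, integral_indicator
      (measurableSet_Ioo.prod measurableSet_Ioo)]
    rw [Measure.restrict_restrict (measurableSet_Ioo.prod measurableSet_Ioo)]
    have h2 : (Ioo (0:ℝ) (th z.1) ×ˢ Ioo (0:ℝ) (th z.2)) ∩ S1 =
        Ioo (0:ℝ) (th z.1) ×ˢ Ioo (0:ℝ) (th z.2) := by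
      rw [inter_eq_left]
      exact prod_mono (Ioo_subset_Ioo_right (th_mem _).2.le) (Ioo_subset_Ioo_right (th_mem _).2.le)
    rw [h2, integral_const_mul, Measure.volume_eq_prod, setIntegral_prod_mul, tl_MMb, tl_MMb]
  -- conclusions
  have c1 : Integrable (fun v : ℝ × ℝ => ∫ z : ℝ × ℝ, F (v, z)) (volume.restrict S1) :=
    hFi.integral_prod_left
  have c2 : Integrable (fun z : ℝ × ℝ => ∫ v in S1, F (v, z)) := hFi.integral_prod_right
  have c3 : ∀ v ∈ S1, ∫ z : ℝ × ℝ, F (v, z) = a v.1 * b v.2 * K (ct v.1) (ct v.2) :=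
    fun v hv => hin v.1 hv.1 v.2 hv.2
  refine ⟨?_, ?_, ?_⟩
  · have : IntegrableOn (fun v : ℝ × ℝ => ∫ z : ℝ × ℝ, F (v, z)) S1 := c1
    exact this.congr_fun c3 hS1m
  · exact c2.congr (Eventually.of_forall hin2)
  · have h1 : form a b K = ∫ v in S1, ∫ z : ℝ × ℝ, F (v, z) :=
      (setIntegral_congr_fun hS1m c3).symm
    rw [h1, ← integral_prod _ hFi, integral_prod_symm _ hFi]
    exact integral_congr_ae (Eventually.of_forall hin2)

end Pool.Agent.H45.DE
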